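import Pool.Agent.Helper23.XT.Basic

/-!
# XT-AlgCl: a field with an extremal valuation `v` is algebraically closed if a coarsening `w` of `v`
has divisible value group and algebraically closed residue field
-/

namespace Pool.Agent.Helper70.XT

open Pool.Agent.Helper23.XT

variable {K Γ Γ' : Type*} [Field K] [LinearOrderedCommGroupWithZero Γ]
  [LinearOrderedCommGroupWithZero Γ'] {v : Valuation K Γ} {w : Valuation K Γ'}

/-- minimum on a ball -/
private theorem exists_min_ball (hv : Extremal v) (P : Polynomial K) {r : K} (hr : r ≠ 0) :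
    ∃ t, v t ≤ v r ∧ ∀ u, v u ≤ v r → v (P.eval t) ≤ v (P.eval u) := by
  obtain ⟨a, ha, hmin⟩ := hv.poly (P.comp (Polynomial.C r * Polynomial.X))
  refine ⟨r * a, ?_, fun u hu => ?_⟩
  · rw [map_mul]
    exact mul_le_of_le_one_right' ha
  · have h1 : v (u / r) ≤ 1 := by
      rw [map_div₀]
      exact div_le_one_of_le₀ hu zero_le
    have h2 := hmin _ h1
    simp only [Polynomial.eval_comp, Polynomial.eval_mul, Polynomial.eval_C,
      Polynomial.eval_X] at h2
    rwa [mul_div_cancel₀ u hr] at h2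

/-- one improvement step for normalised coefficients -/
private theorem exists_small_aux
    (hres : ∀ P : Polynomial K, P.Monic → 0 < P.natDegree → (∀ i, w (P.coeff i) ≤ 1) →
      ∃ x, w x ≤ 1 ∧ w (P.eval x) < 1) (d : ℕ) (r : ℕ → K) (hr : ∀ i ≤ d, w (r i) ≤ 1)
    {i0 : ℕ} (hi0 : 0 < i0) (hi0d : i0 ≤ d) (hri0 : w (r i0) = 1) :
    ∃ x, w x ≤ 1 ∧ w (∑ i ∈ Finset.range (d + 1), r i * x ^ i) < 1 := by
  classical
  obtain ⟨i1, hi1, hmax⟩ := Finset.exists_max_image
    ((Finset.range (d + 1)).filter fun i => w (r i) = 1) (fun i => i)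
    ⟨i0, Finset.mem_filter.2 ⟨Finset.mem_range.2 (by omega), hri0⟩⟩
  rw [Finset.mem_filter, Finset.mem_range] at hi1
  obtain ⟨hi1d, hri1⟩ := hi1
  have hle : i0 ≤ i1 :=
    hmax i0 (Finset.mem_filter.2 ⟨Finset.mem_range.2 (by omega), hri0⟩)
  have hbig : ∀ i, i1 < i → i ≤ d → w (r i) < 1 := by
    intro i h1 h2
    refine lt_of_le_of_ne (hr i h2) fun h3 => ?_
    have := hmax i (Finset.mem_filter.2 ⟨Finset.mem_range.2 (by omega), h3⟩)
    omega
  have hne : r i1 ≠ 0 := by
    intro h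
    rw [h, map_zero] at hri1
    exact zero_ne_one hri1
  set R : Polynomial K := ∑ i ∈ Finset.range (i1 + 1), Polynomial.monomial i (r i / r i1) with hR
  have hcoeff : ∀ i, R.coeff i = if i < i1 + 1 then r i / r i1 else 0 := by
    intro i
    rw [hR, Polynomial.finsetSum_coeff]
    simp only [Polynomial.coeff_monomial]
    rw [Finset.sum_ite_eq']
    simp only [Finset.mem_range]
  have hc1 : R.coeff i1 = 1 := by
    rw [hcoeff, if_pos (by omega), div_self hne]
  have hnd : R.natDegree ≤ i1 := by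
    rw [Polynomial.natDegree_le_iff_coeff_eq_zero]
    intro N hN
    rw [hcoeff, if_neg (by omega)]
  have hmon : R.Monic := Polynomial.monic_of_natDegree_le_of_coeff_eq_one i1 hnd hc1
  have hdeg : 0 < R.natDegree := by
    have : i1 ≤ R.natDegree := Polynomial.le_natDegree_of_ne_zero (by rw [hc1]; exact one_ne_zero)
    omega
  obtain ⟨x, hx, hRx⟩ := hres R hmon hdeg (fun i => by
    rw [hcoeff]
    split_ifs with h
    · rw [map_div₀, hri1, div_one]
      exact hr i (by omega)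
    · rw [map_zero]
      exact zero_le)
  refine ⟨x, hx, ?_⟩
  have e1 : ∑ i ∈ Finset.range (i1 + 1), r i * x ^ i = r i1 * R.eval x := by
    rw [hR, Polynomial.eval_finsetSum, Finset.mul_sum]
    refine Finset.sum_congr rfl fun i _ => ?_
    rw [Polynomial.eval_monomial]
    field_simp
  have hsub : Finset.range (i1 + 1) ⊆ Finset.range (d + 1) := by
    intro i hi
    rw [Finset.mem_range] at hi ⊢
    omega
  rw [← Finset.sum_sdiff hsub]
  refine lt_of_le_of_lt (w.map_add _ _) (max_lt ?_ ?_)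
  · refine Valuation.map_sum_lt w one_ne_zero fun i hi => ?_
    rw [Finset.mem_sdiff, Finset.mem_range, Finset.mem_range] at hi
    rw [map_mul, map_pow]
    calc w (r i) * w x ^ i ≤ w (r i) * 1 := by
          gcongr
          exact pow_le_one' hx i
      _ = w (r i) := mul_one _
      _ < 1 := hbig i (by omega) (by omega)
  · rw [e1, map_mul, hri1, one_mul]
    exact hRx

/-- one improvement step -/
private theorem exists_small
    (hdiv : ∀ c : K, c ≠ 0 → ∀ m : ℕ, 0 < m → ∃ x, w x ^ m = w c)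
    (hres : ∀ P : Polynomial K, P.Monic → 0 < P.natDegree → (∀ i, w (P.coeff i) ≤ 1) →
      ∃ x, w x ≤ 1 ∧ w (P.eval x) < 1) {Q : Polynomial K} (hQ : Q.Monic)
    (hd : 0 < Q.natDegree) (h0 : Q.coeff 0 ≠ 0) :
    ∃ y, w y ^ Q.natDegree ≤ w (Q.coeff 0) ∧ w (Q.eval y) < w (Q.coeff 0) := by
  classical
  set d := Q.natDegree with hdd
  have hex : ∀ i, ∃ x, (0 < i ∧ Q.coeff i ≠ 0) → w x ^ i = w (Q.coeff 0 / Q.coeff i) := by
    intro i
    by_cases h : 0 < i ∧ Q.coeff i ≠ 0
    · obtain ⟨x, hx⟩ := hdiv (Q.coeff 0 / Q.coeff i) (div_ne_zero h0 h.2) i h.1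
      exact ⟨x, fun _ => hx⟩
    · exact ⟨0, fun h' => absurd h' h⟩
  choose s hs using hex
  have hlc : Q.coeff d = 1 := hQ.coeff_natDegree
  have hdI : d ∈ (Finset.range (d + 1)).filter fun i => 0 < i ∧ Q.coeff i ≠ 0 :=
    Finset.mem_filter.2 ⟨Finset.mem_range.2 (by omega), hd, by rw [hlc]; exact one_ne_zero⟩
  obtain ⟨i0, hi0, hmin⟩ := Finset.exists_min_image
    ((Finset.range (d + 1)).filter fun i => 0 < i ∧ Q.coeff i ≠ 0) (fun i => w (s i)) ⟨d, hdI⟩
  rw [Finset.mem_filter, Finset.mem_range] at hi0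
  obtain ⟨hi0d, hi0pos, hqi0⟩ := hi0
  have w0 : w (Q.coeff 0) ≠ 0 := (Valuation.ne_zero_iff w).2 h0
  have hle : ∀ i, 0 < i → i ≤ d → w (Q.coeff i * s i0 ^ i) ≤ w (Q.coeff 0) := by
    intro i h1 h2
    by_cases h3 : Q.coeff i = 0
    · rw [h3, zero_mul, map_zero]
      exact zero_le
    · have h4 := hmin i (Finset.mem_filter.2 ⟨Finset.mem_range.2 (by omega), h1, h3⟩)
      have h5 := hs i ⟨h1, h3⟩
      rw [map_mul, map_pow]
      calc w (Q.coeff i) * w (s i0) ^ i ≤ w (Q.coeff i) * w (s i) ^ i := by gcongr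
        _ = w (Q.coeff 0) := by
          rw [h5, ← map_mul, mul_div_cancel₀ _ h3]
  obtain ⟨x, hx, hlt⟩ := exists_small_aux hres d (fun i => Q.coeff i * s i0 ^ i / Q.coeff 0)
    (fun i hi => by
      rw [map_div₀]
      refine div_le_one_of_le₀ ?_ zero_le
      rcases Nat.eq_zero_or_pos i with h | h
      · rw [h, pow_zero, mul_one]
      · exact hle i h hi) hi0pos (by omega) (by
      have h5 := hs i0 ⟨hi0pos, hqi0⟩
      rw [map_div₀, map_mul, map_pow, h5, ← map_mul, mul_div_cancel₀ _ hqi0, div_self w0])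
  refine ⟨s i0 * x, ?_, ?_⟩
  · have h6 := hs d ⟨hd, by rw [hlc]; exact one_ne_zero⟩
    rw [hlc, div_one] at h6
    rw [← h6]
    have h7 : w (s i0 * x) ≤ w (s d) := by
      rw [map_mul]
      calc w (s i0) * w x ≤ w (s i0) * 1 := by gcongr
        _ = w (s i0) := mul_one _
        _ ≤ w (s d) := hmin d hdI
    exact pow_le_pow_left' h7 d
  · have e : Q.eval (s i0 * x) = Q.coeff 0 *
        ∑ i ∈ Finset.range (d + 1), Q.coeff i * s i0 ^ i / Q.coeff 0 * x ^ i := by
      rw [Polynomial.eval_eq_sum_range, Finset.mul_sum]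
      refine Finset.sum_congr rfl fun i _ => ?_
      rw [mul_pow]
      field_simp
    rw [e, map_mul]
    calc w (Q.coeff 0) * w (∑ i ∈ Finset.range (d + 1), Q.coeff i * s i0 ^ i / Q.coeff 0 * x ^ i)
        < w (Q.coeff 0) * 1 := by
          have hp : 0 < w (Q.coeff 0) := zero_lt_iff.2 w0
          exact mul_lt_mul_of_pos_left hlt hp
      _ = w (Q.coeff 0) := mul_one _

theorem isAlgClosed_of (hv : Extremal v) (hvw : ∀ x, v x ≤ 1 → w x ≤ 1)
    (hnt : ∃ x, 1 < w x)
    (hdiv : ∀ c : K, c ≠ 0 → ∀ m : ℕ, 0 < m → ∃ x, w x ^ m = w c)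
    (hres : ∀ P : Polynomial K, P.Monic → 0 < P.natDegree → (∀ i, w (P.coeff i) ≤ 1) →
      ∃ x, w x ≤ 1 ∧ w (P.eval x) < 1) : IsAlgClosed K := by
  refine IsAlgClosed.of_exists_root K fun P hP hirr => ?_
  by_contra hno
  push Not at hno
  have hd : 0 < P.natDegree := hirr.natDegree_pos
  -- a large element
  obtain ⟨r, hr1, hr2⟩ : ∃ r : K, 1 < w r ∧ w (P.eval 0) < w r := by
    obtain ⟨x, hx⟩ := hnt
    rcases le_total (w (P.eval 0)) 1 with h | h
    · exact ⟨x, hx, h.trans_lt hx⟩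
    · refine ⟨x * P.eval 0, ?_, ?_⟩
      · rw [map_mul]
        exact one_lt_mul_of_lt_of_le' hx h
      · rw [map_mul]
        have hp : 0 < w (P.eval 0) := lt_of_lt_of_le zero_lt_one h
        exact lt_mul_of_one_lt_left hp hx
  have hr0 : r ≠ 0 := by
    rintro rfl
    rw [map_zero] at hr1
    exact absurd hr1 (not_lt.2 zero_le)
  obtain ⟨t, ht, hmin⟩ := exists_min_ball hv P hr0
  set Q : Polynomial K := P.comp (Polynomial.X + Polynomial.C t) with hQ
  have hQm : Q.Monic := hP.comp_X_add_C t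
  have hQd : Q.natDegree = P.natDegree := by
    rw [hQ, Polynomial.natDegree_comp, Polynomial.natDegree_X_add_C, mul_one]
  have hQe : ∀ y, Q.eval y = P.eval (y + t) := by
    intro y
    rw [hQ, Polynomial.eval_comp, Polynomial.eval_add, Polynomial.eval_X, Polynomial.eval_C]
  have hQ0 : Q.coeff 0 = P.eval t := by
    rw [Polynomial.coeff_zero_eq_eval_zero, hQe, zero_add]
  obtain ⟨y, hy1, hy2⟩ := exists_small hdiv hres hQm (by rw [hQd]; exact hd)
    (by rw [hQ0]; exact hno t)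
  rw [hQ0] at hy1 hy2
  rw [hQe] at hy2
  have hyr : w y < w r := by
    by_contra hc
    rw [not_lt] at hc
    have h1 : w (P.eval t) ≤ w (P.eval 0) :=
      w_le_of_v_le hvw (hmin 0 (by rw [map_zero]; exact zero_le))
    have h2 : w r ≤ w r ^ Q.natDegree := le_self_pow₀ hr1.le (by omega)
    have h3 : w r ^ Q.natDegree ≤ w y ^ Q.natDegree := pow_le_pow_left' hc _
    exact absurd (h2.trans (h3.trans (hy1.trans h1))) (not_le.2 hr2)
  have hball : v (y + t) ≤ v r :=
    (v.map_add _ _).trans (max_le (v_lt_of_w_lt hvw hyr).le ht)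
  exact absurd (hmin _ hball) (not_le.2 (v_lt_of_w_lt hvw hy2))

end Pool.Agent.Helper70.XT
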